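import Pool.Agent.Run7.h700.KC.Stm

/-!
Piece QUO of project KC (helper700), written by helper989: the quotient with removable singularities.
-/

set_option autoImplicit false

namespace Pool.Agent.Run7.h989.KC

open Metric Set Filter Topology
open Pool.Agent.Run7.h700.KC

theorem t_QUO : S_QUO := by
  intro r f g hr hr1 hf hg hfg hne
  obtain ⟨A, hA⟩ : ∃ A : Set ℂ, A = {z | r < ‖z‖ ∧ ‖z‖ < 1} := ⟨_, rfl⟩
  have hAm : ∀ z, z ∈ A ↔ r < ‖z‖ ∧ ‖z‖ < 1 := fun z => by rw [hA]; rfl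
  have hAo : IsOpen A := by
    rw [hA]
    exact (isOpen_lt continuous_const continuous_norm).inter (isOpen_lt continuous_norm continuous_const)
  have hAb : A ⊆ ball 0 1 := fun z hz => by
    rw [mem_ball_zero_iff]
    exact ((hAm z).1 hz).2
  have hga : AnalyticOnNhd ℂ g (ball 0 1) := hg.analyticOnNhd isOpen_ball
  obtain ⟨q, hq⟩ : ∃ q : ℂ → ℂ, q = fun w => f w / g w := ⟨_, rfl⟩
  have hiso : ∀ z ∈ A, ∀ᶠ w in 𝓝[≠] z, g w ≠ 0 := by
    intro z hz
    rcases (hga z (hAb hz)).eventually_eq_zero_or_eventually_ne_zero with h | h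
    · exfalso
      obtain ⟨y, hy, hy0⟩ := hne
      exact hy0 (hga.eqOn_zero_of_preconnected_of_eventuallyEq_zero (convex_ball 0 1).isPreconnected
        (hAb hz) h hy)
    · exact h
  have hball : ∀ z ∈ A, ∃ ρ > 0, ball z ρ ⊆ A ∧ ∀ w ∈ ball z ρ, w ≠ z → g w ≠ 0 := by
    intro z hz
    have h1 : ∀ᶠ w in 𝓝 z, w ≠ z → g w ≠ 0 := eventually_nhdsWithin_iff.1 (hiso z hz)
    have h2 : ∀ᶠ w in 𝓝 z, w ∈ A := hAo.mem_nhds hz
    obtain ⟨ρ, hρ, h⟩ := Metric.eventually_nhds_iff_ball.1 (h1.and h2)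
    exact ⟨ρ, hρ, fun w hw => (h w hw).2, fun w hw => (h w hw).1⟩
  have hq1 : ∀ w ∈ A, ‖q w‖ ≤ 1 := by
    intro w hw
    rw [hq]
    show ‖f w / g w‖ ≤ 1
    rw [norm_div]
    exact div_le_one_of_le₀ (hfg w ((hAm w).1 hw).1 ((hAm w).1 hw).2) (norm_nonneg _)
  have hfd : ∀ w ∈ A, DifferentiableAt ℂ f w := fun w hw =>
    hf.differentiableAt (isOpen_ball.mem_nhds (hAb hw))
  have hgd : ∀ w ∈ A, DifferentiableAt ℂ g w := fun w hw =>
    hg.differentiableAt (isOpen_ball.mem_nhds (hAb hw))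
  have hqd : ∀ w ∈ A, g w ≠ 0 → DifferentiableAt ℂ q w := by
    intro w hw hgw
    rw [hq]
    exact (hfd w hw).div (hgd w hw) hgw
  obtain ⟨ω, hω⟩ : ∃ ω : ℂ → ℂ, ω = fun z => limUnder (𝓝[≠] z) q := ⟨_, rfl⟩
  have hωq : ∀ w ∈ A, g w ≠ 0 → ω w = q w := by
    intro w hw hgw
    rw [hω]
    exact ((hqd w hw hgw).continuousAt.tendsto.mono_left nhdsWithin_le_nhds).limUnder_eq
  have hmain : ∀ z ∈ A, DifferentiableAt ℂ ω z := by
    intro z hz
    obtain ⟨ρ, hρ, hsub, hgne⟩ := hball z hz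
    have hd : DifferentiableOn ℂ q (ball z ρ \ {z}) := fun w hw =>
      (hqd w (hsub hw.1) (hgne w hw.1 hw.2)).differentiableWithinAt
    have hb : BddAbove (norm ∘ q '' (ball z ρ \ {z})) := ⟨1, by
      rintro _ ⟨w, hw, rfl⟩
      exact hq1 w (hsub hw.1)⟩
    have h3 := Complex.differentiableOn_update_limUnder_of_bddAbove (ball_mem_nhds z hρ) hd hb
    have h4 : DifferentiableAt ℂ (Function.update q z (limUnder (𝓝[≠] z) q)) z :=
      h3.differentiableAt (ball_mem_nhds z hρ)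
    refine h4.congr_of_eventuallyEq ?_
    filter_upwards [ball_mem_nhds z hρ] with w hw
    by_cases hwz : w = z
    · subst hwz
      rw [Function.update_self, hω]
    · rw [Function.update_of_ne hwz, hωq w (hsub hw) (hgne w hw hwz)]
  have hlim : ∀ z ∈ A, Tendsto q (𝓝[≠] z) (𝓝 (ω z)) := by
    intro z hz
    have h5 : Tendsto ω (𝓝[≠] z) (𝓝 (ω z)) :=
      (hmain z hz).continuousAt.tendsto.mono_left nhdsWithin_le_nhds
    refine h5.congr' ?_
    filter_upwards [hiso z hz, mem_nhdsWithin_of_mem_nhds (hAo.mem_nhds hz)] with w hw hwA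
    exact hωq w hwA hw
  refine ⟨ω, fun z hz => (hmain z ((hAm z).2 hz)).differentiableWithinAt, fun z hz1 hz2 => ?_⟩
  have hz : z ∈ A := (hAm z).2 ⟨hz1, hz2⟩
  refine ⟨?_, ?_⟩
  · refine le_of_tendsto (hlim z hz).norm ?_
    filter_upwards [mem_nhdsWithin_of_mem_nhds (hAo.mem_nhds hz)] with w hw using hq1 w hw
  · have h6 : Tendsto (fun w => q w * g w) (𝓝[≠] z) (𝓝 (ω z * g z)) :=
      (hlim z hz).mul ((hgd z hz).continuousAt.tendsto.mono_left nhdsWithin_le_nhds)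
    have h7 : Tendsto f (𝓝[≠] z) (𝓝 (f z)) :=
      (hfd z hz).continuousAt.tendsto.mono_left nhdsWithin_le_nhds
    refine tendsto_nhds_unique (h7.congr' ?_) h6
    filter_upwards [hiso z hz] with w hw
    rw [hq]
    show f w = f w / g w * g w
    rw [div_mul_cancel₀ _ hw]

end Pool.Agent.Run7.h989.KC
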